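import Pool.Agent.Helper63.TH.Goals

/-! # (SUM): integral over the half line bounded by the sum over the grid cells -/

namespace Pool.Agent.Helper75.TH

open MeasureTheory Set
open Pool.Agent.Helper53.PT Pool.Agent.Helper63.TH

theorem int_tail (d : ℝ) : IntegrableOn (fun x : ℝ => d / (x * √x)) (Ioi 64) ∧
    ∫ x in Ioi (64 : ℝ), d / (x * √x) = d / 4 := by
  have h1 : ∀ x ∈ Ioi (64 : ℝ), d / (x * √x) = d * x ^ (-(3 / 2) : ℝ) := by
    intro x hx
    have hx0 : (0 : ℝ) < x := lt_trans (by norm_num) hx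
    have e : x ^ (-(3 / 2) : ℝ) = (x * √x)⁻¹ := by
      rw [Real.rpow_neg hx0.le, Real.sqrt_eq_rpow]
      congr 1
      rw [show (3 / 2 : ℝ) = 1 + 1 / 2 by norm_num, Real.rpow_add hx0, Real.rpow_one]
    rw [e]; rfl
  have h2 : IntegrableOn (fun x : ℝ => x ^ (-(3 / 2) : ℝ)) (Ioi 64) :=
    integrableOn_Ioi_rpow_of_lt (by norm_num) (by norm_num)
  have h3 : ∫ x in Ioi (64 : ℝ), x ^ (-(3 / 2) : ℝ) = 1 / 4 := by
    rw [integral_Ioi_rpow_of_lt (by norm_num) (by norm_num)]
    have e : (64 : ℝ) ^ (-(3 / 2) + 1 : ℝ) = 1 / 8 := by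
      rw [show (-(3 / 2) + 1 : ℝ) = -(1 / 2) by norm_num, Real.rpow_neg (by norm_num),
        ← Real.sqrt_eq_rpow, show (64 : ℝ) = 8 ^ 2 by norm_num, Real.sqrt_sq (by norm_num)]
      norm_num
    rw [e]; norm_num
  constructor
  · exact IntegrableOn.congr_fun (h2.const_mul d) (fun x hx => (h1 x hx).symm) measurableSet_Ioi
  · rw [setIntegral_congr_fun measurableSet_Ioi h1, integral_const_mul, h3]
    ring

theorem gSUM : GSUM := by
  intro hG g c d hg hc hd
  obtain ⟨x0, x1, hstep, hmono, -, -, -, -⟩ := hG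
  have e0 : xR 0 = 0 := by unfold xR aR; rw [x0]; simp
  have e1 : xR 1152 = 64 := by unfold xR aR; rw [x1]; norm_num
  have es : ∀ k < 1152, xR (k + 1) - xR k = (2 : ℝ) ^ N.shf k / 2 ^ 26 := by
    intro k hk
    unfold xR aR
    rw [(hstep k hk).1]
    push_cast
    ring
  have el : ∀ k < 1152, xR k < xR (k + 1) := by
    intro k hk
    have := es k hk
    have h2 : (0 : ℝ) < (2 : ℝ) ^ N.shf k / 2 ^ 26 := by positivity
    linarith
  have enn : ∀ k, 0 ≤ xR k := by intro k; unfold xR aR; positivity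
  have hii : ∀ k < 1152, IntervalIntegrable g volume (xR k) (xR (k + 1)) := by
    intro k hk
    rw [intervalIntegrable_iff_integrableOn_Ioc_of_le (el k hk).le]
    exact hg.mono_set fun x hx => lt_of_le_of_lt (enn k) hx.1
  have hsum : ∑ k ∈ Finset.range 1152, ∫ x in (xR k)..(xR (k + 1)), g x = ∫ x in (0 : ℝ)..64, g x := by
    rw [intervalIntegral.sum_integral_adjacent_intervals hii, e0, e1]
  have hcell : ∀ k ∈ Finset.range 1152, ∫ x in (xR k)..(xR (k + 1)), g x ≤
      c k * ((2 : ℝ) ^ N.shf k / 2 ^ 26) := by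
    intro k hk
    have hk' := Finset.mem_range.1 hk
    have h1 : ∫ x in (xR k)..(xR (k + 1)), g x ≤ ∫ x in (xR k)..(xR (k + 1)), c k :=
      intervalIntegral.integral_mono_on_of_le_Ioo (el k hk').le (hii k hk')
        intervalIntegrable_const (fun x hx => hc k hk' x hx.1 hx.2)
    rw [intervalIntegral.integral_const, smul_eq_mul, es k hk'] at h1
    linarith
  have hsplit : ∫ x in Ioi (0 : ℝ), g x = (∫ x in (0 : ℝ)..64, g x) + ∫ x in Ioi (64 : ℝ), g x := by
    rw [intervalIntegral.integral_of_le (by norm_num), ← setIntegral_union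
      (Ioc_disjoint_Ioi le_rfl) measurableSet_Ioi
      (hg.mono_set fun x hx => hx.1) (hg.mono_set fun x (hx : 64 < x) => lt_trans (by norm_num) hx),
      Ioc_union_Ioi_eq_Ioi (by norm_num)]
  have htail : ∫ x in Ioi (64 : ℝ), g x ≤ d / 4 := by
    rw [← (int_tail d).2]
    exact setIntegral_mono_on (hg.mono_set fun x (hx : 64 < x) => lt_trans (by norm_num) hx)
      (int_tail d).1 measurableSet_Ioi (fun x hx => hd x hx)
  rw [hsplit, ← hsum]
  have := Finset.sum_le_sum hcell
  linarith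

end Pool.Agent.Helper75.TH
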